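import Mathlib.Analysis.Convex.SpecificFunctions.Basic
import Mathlib.Analysis.SpecialFunctions.Pow.Real
import Mathlib.Analysis.SpecialFunctions.Pow.Deriv
import Mathlib.Analysis.Convex.SpecificFunctions.Deriv
import Mathlib.Tactic

/-!
# Convexity of the threshold exponent

With `z = y^(1/α)` the condition `β ∈ S_α` reads
`(β - α) log y + α log (γ (1 - y)) ≤ α log (1 - y^(1/α))` for all `y ∈ (0, 1)`.  The right-hand
side is the perspective of the concave function `x ↦ log (1 - y^x)`, so the set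
`{(α, β) : β ∈ S_α}` is convex, and hence so is `α ↦ inf S_α`.
-/

open Set

namespace Pool.Agent.Results.MP_16faa7_an.ThresholdConvex

/-- The set `S_α` of admissible exponents. -/
def S (γ α : ℝ) : Set ℝ :=
  {β | 0 < β ∧ ∀ z : ℝ, 0 < z → z < 1 → γ * z ^ (β - α) * (1 - z ^ α) ≤ 1 - z}

/-- The threshold exponent `β(α) = inf S_α`. -/
noncomputable def thr (γ α : ℝ) : ℝ := sInf (S γ α)

/-- `x ↦ log (1 - y^x)` is concave on `x > 0`. -/
lemma log_concave {y : ℝ} (hy0 : 0 < y) (hy1 : y < 1) {x₁ x₂ s t : ℝ} (h1 : 0 < x₁) (h2 : 0 < x₂)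
    (hs : 0 ≤ s) (ht : 0 ≤ t) (hst : s + t = 1) :
    s * Real.log (1 - y ^ x₁) + t * Real.log (1 - y ^ x₂)
      ≤ Real.log (1 - y ^ (s * x₁ + t * x₂)) := by
  have p1 : 0 < 1 - y ^ x₁ := by have := Real.rpow_lt_one hy0.le hy1 h1; linarith
  have p2 : 0 < 1 - y ^ x₂ := by have := Real.rpow_lt_one hy0.le hy1 h2; linarith
  have hc := strictConcaveOn_log_Ioi.concaveOn.2 (mem_Ioi.2 p1) (mem_Ioi.2 p2) hs ht hst
  simp only [smul_eq_mul] at hc
  refine hc.trans ?_
  have hpos : 0 < s * (1 - y ^ x₁) + t * (1 - y ^ x₂) := by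
    rcases eq_or_lt_of_le hs with h | h
    · have : t = 1 := by linarith
      rw [← h, this]; linarith
    · have := mul_nonneg ht p2.le
      have := mul_pos h p1
      linarith
  apply Real.log_le_log hpos
  have he := convexOn_exp.2 (mem_univ (Real.log y * x₁)) (mem_univ (Real.log y * x₂)) hs ht hst
  simp only [smul_eq_mul] at he
  have e : s * (Real.log y * x₁) + t * (Real.log y * x₂) = Real.log y * (s * x₁ + t * x₂) := by
    ring
  rw [e, ← Real.rpow_def_of_pos hy0, ← Real.rpow_def_of_pos hy0, ← Real.rpow_def_of_pos hy0] at he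
  nlinarith

/-- The logarithmic form of the condition. -/
lemma cond_log {γ α β y : ℝ} (hγ : 0 < γ) (hα : 0 < α) (hy0 : 0 < y) (hy1 : y < 1)
    (x : ℝ) (hx : x = 1 / α) :
    (γ * (y ^ x) ^ (β - α) * (1 - (y ^ x) ^ α) ≤ 1 - y ^ x) ↔
      (β - α) * Real.log y + α * Real.log (γ * (1 - y)) ≤ α * Real.log (1 - y ^ x) := by
  have hx0 : 0 < x := by rw [hx]; positivity
  have hz0 : 0 < y ^ x := Real.rpow_pos_of_pos hy0 x
  have hz1 : y ^ x < 1 := Real.rpow_lt_one hy0.le hy1 hx0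
  have e1 : (y ^ x) ^ α = y := by
    rw [← Real.rpow_mul hy0.le, hx, one_div, inv_mul_cancel₀ hα.ne', Real.rpow_one]
  have hy : 0 < 1 - y := by linarith
  rw [e1]
  have hpos : 0 < γ * (y ^ x) ^ (β - α) * (1 - y) := by positivity
  rw [← Real.log_le_log_iff hpos (by linarith), mul_right_comm,
    Real.log_mul (by positivity) (by positivity), Real.log_rpow hz0, Real.log_rpow hy0]
  have e2 : (β - α) * Real.log y = α * ((β - α) * (x * Real.log y)) := by
    rw [hx]; field_simp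
  rw [e2]
  constructor
  · intro h
    have := mul_le_mul_of_nonneg_left h hα.le
    linarith
  · intro h
    by_contra hcon
    have := mul_lt_mul_of_pos_left (not_le.1 hcon) hα
    linarith

/-- The graph set is convex. -/
lemma S_convex {γ α₁ α₂ β₁ β₂ s t : ℝ} (hγ : 0 < γ) (h1 : 0 < α₁) (h2 : 0 < α₂)
    (hb1 : β₁ ∈ S γ α₁) (hb2 : β₂ ∈ S γ α₂) (hs : 0 ≤ s) (ht : 0 ≤ t) (hst : s + t = 1) :
    s * β₁ + t * β₂ ∈ S γ (s * α₁ + t * α₂) := by
  have hpos : ∀ a b : ℝ, 0 < a → 0 < b → 0 < s * a + t * b := by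
    intro a b ha hb
    rcases eq_or_lt_of_le hs with h | h
    · have : t = 1 := by linarith
      rw [← h, this]; linarith
    · have := mul_nonneg ht hb.le
      have := mul_pos h ha
      linarith
  refine ⟨hpos _ _ hb1.1 hb2.1, fun z hz0 hz1 => ?_⟩
  set α := s * α₁ + t * α₂ with hα
  have hα0 : 0 < α := hpos _ _ h1 h2
  set y : ℝ := z ^ α with hy
  have hy0 : 0 < y := Real.rpow_pos_of_pos hz0 _
  have hy1 : y < 1 := Real.rpow_lt_one hz0.le hz1 hα0
  have ez : z = y ^ (1 / α) := by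
    rw [hy, ← Real.rpow_mul hz0.le, mul_one_div_cancel hα0.ne', Real.rpow_one]
  have c1 := (cond_log (β := β₁) hγ h1 hy0 hy1 (1 / α₁) rfl).1 (hb1.2 _
    (Real.rpow_pos_of_pos hy0 _) (Real.rpow_lt_one hy0.le hy1 (by positivity)))
  have c2 := (cond_log (β := β₂) hγ h2 hy0 hy1 (1 / α₂) rfl).1 (hb2.2 _
    (Real.rpow_pos_of_pos hy0 _) (Real.rpow_lt_one hy0.le hy1 (by positivity)))
  have c := cond_log (β := s * β₁ + t * β₂) hγ hα0 hy0 hy1 (1 / α) rfl
  rw [← ez] at c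
  rw [c]
  have hl := log_concave hy0 hy1 (x₁ := 1 / α₁) (x₂ := 1 / α₂) (s := s * α₁ / α) (t := t * α₂ / α)
    (by positivity) (by positivity) (by positivity) (by positivity) (by rw [← add_div, ← hα]; field_simp)
  have ex : s * α₁ / α * (1 / α₁) + t * α₂ / α * (1 / α₂) = 1 / α := by
    field_simp
    exact hst
  rw [ex] at hl
  have hl' := mul_le_mul_of_nonneg_left hl hα0.le
  have e3 : α * (s * α₁ / α * Real.log (1 - y ^ (1 / α₁)) + t * α₂ / α * Real.log (1 - y ^ (1 / α₂)))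
      = s * (α₁ * Real.log (1 - y ^ (1 / α₁))) + t * (α₂ * Real.log (1 - y ^ (1 / α₂))) := by
    field_simp
  rw [e3] at hl'
  rw [← ez] at hl'
  have d1 := mul_le_mul_of_nonneg_left c1 hs
  have d2 := mul_le_mul_of_nonneg_left c2 ht
  have e4 : (s * β₁ + t * β₂ - α) * Real.log y + α * Real.log (γ * (1 - y))
      = s * ((β₁ - α₁) * Real.log y + α₁ * Real.log (γ * (1 - y)))
        + t * ((β₂ - α₂) * Real.log y + α₂ * Real.log (γ * (1 - y))) := by
    rw [hα]; ring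
  rw [e4]
  linarith

/-- `1 ∈ S_α` when `α γ < 1`, `γ > 1`. -/
lemma one_mem {γ α : ℝ} (hγ : 1 < γ) (hα : 0 < α) (hα1 : α < 1 / γ) : (1 : ℝ) ∈ S γ α := by
  refine ⟨one_pos, fun z hz0 hz1 => ?_⟩
  have hγ0 : 0 < γ := by linarith
  have hag : α * γ < 1 := by rwa [lt_div_iff₀ hγ0] at hα1
  have ha1 : α < 1 := by nlinarith
  -- `z ^ (1 - α) (1 - z ^ α) = z ^ (1 - α) - z ≤ α (1 - z)`
  have h1 : z ^ (1 - α) * z ^ α = z := by
    rw [← Real.rpow_add hz0]; simp
  have h2 : z ^ (1 - α) ≤ 1 + (1 - α) * (z - 1) := by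
    have := rpow_one_add_le_one_add_mul_self (s := z - 1) (p := 1 - α) (by linarith)
      (by linarith) (by linarith)
    simpa using this
  have h3 : γ * z ^ (1 - α) * (1 - z ^ α) = γ * (z ^ (1 - α) - z) := by
    rw [mul_sub, mul_one, mul_assoc, h1, mul_sub]
  rw [h3]
  have h4 : z ^ (1 - α) - z ≤ α * (1 - z) := by linarith
  calc γ * (z ^ (1 - α) - z) ≤ γ * (α * (1 - z)) := mul_le_mul_of_nonneg_left h4 hγ0.le
    _ = (α * γ) * (1 - z) := by ring
    _ ≤ 1 * (1 - z) := mul_le_mul_of_nonneg_right hag.le (by linarith)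
    _ = 1 - z := one_mul _

/-- For every `γ > 1` the function `α ↦ inf S_α` is convex on `(0, 1/γ)`. -/
theorem result (γ : ℝ) (hγ : 1 < γ) : ConvexOn ℝ (Ioo 0 (1 / γ)) (thr γ) := by
  refine ⟨convex_Ioo _ _, ?_⟩
  intro α₁ h1 α₂ h2 s t hs ht hst
  simp only [smul_eq_mul]
  have hbdd : ∀ a, BddBelow (S γ a) := fun a => ⟨0, fun b hb => hb.1.le⟩
  have hne1 : (S γ α₁).Nonempty := ⟨1, one_mem hγ h1.1 h1.2⟩
  have hne2 : (S γ α₂).Nonempty := ⟨1, one_mem hγ h2.1 h2.2⟩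
  refine le_of_forall_pos_le_add fun ε hε => ?_
  obtain ⟨b1, hb1, hlt1⟩ := exists_lt_of_csInf_lt hne1 (lt_add_of_pos_right (sInf (S γ α₁)) hε)
  obtain ⟨b2, hb2, hlt2⟩ := exists_lt_of_csInf_lt hne2 (lt_add_of_pos_right (sInf (S γ α₂)) hε)
  have hm := S_convex (by linarith) h1.1 h2.1 hb1 hb2 hs ht hst
  have hle : thr γ (s * α₁ + t * α₂) ≤ s * b1 + t * b2 := csInf_le (hbdd _) hm
  have e1 : s * b1 ≤ s * (thr γ α₁ + ε) := mul_le_mul_of_nonneg_left hlt1.le hs
  have e2 : t * b2 ≤ t * (thr γ α₂ + ε) := mul_le_mul_of_nonneg_left hlt2.le ht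
  have e3 : s * (thr γ α₁ + ε) + t * (thr γ α₂ + ε)
      = s * thr γ α₁ + t * thr γ α₂ + (s + t) * ε := by ring
  rw [hst] at e3
  linarith

end Pool.Agent.Results.MP_16faa7_an.ThresholdConvex
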